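import Mathlib

set_option autoImplicit false

namespace Pool.Agent.Results.MP_70010f_co.Dim

open Set Module Filter Topology
open scoped RealInnerProductSpace

variable {V : Type} [NormedAddCommGroup V] [InnerProductSpace ℝ V] {N : ℕ}

/-- intersection of the closed hemispheres `⟪a i, x⟫ ≥ 0` (`i ∈ P`), `⟪a i, x⟫ ≤ 0` (`i ∈ M`) -/
def cv (a : Fin N → V) (P M : Set (Fin N)) : Set V :=
  {x | ‖x‖ = 1 ∧ (∀ i ∈ P, 0 ≤ ⟪a i, x⟫) ∧ ∀ i ∈ M, ⟪a i, x⟫ ≤ 0}

/-- nonempty intersections of roots -/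
def Y (a : Fin N → V) : Set (Set V) := {C | C.Nonempty ∧ ∃ P M, C = cv a P M}

lemma nm {a : Fin N → V} {P M : Set (Fin N)} {x : V} (hx : x ≠ 0) :
    ‖x‖⁻¹ • x ∈ cv a P M ↔ (∀ i ∈ P, 0 ≤ ⟪a i, x⟫) ∧ ∀ i ∈ M, ⟪a i, x⟫ ≤ 0 := by
  have h : 0 < ‖x‖⁻¹ := inv_pos.2 (norm_pos_iff.2 hx)
  have h1 : ‖‖x‖⁻¹ • x‖ = 1 := norm_smul_inv_norm (𝕜 := ℝ) hx
  simp only [cv, mem_setOf_eq, h1, true_and, inner_smul_right,
    mul_nonneg_iff_of_pos_left h, mul_nonpos_iff_pos_imp_nonpos, h, forall_true_left, h.not_gt]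
  simp

variable [FiniteDimensional ℝ V]

open Classical in
noncomputable def phi (a : Fin N → V) (C : Set V) : ℕ :=
  (Finset.univ.filter fun i => (∃ x ∈ C, ⟪a i, x⟫ < 0) ∧ ∃ x ∈ C, 0 < ⟪a i, x⟫).card +
    finrank ℝ (Submodule.span ℝ C)

open Classical in
lemma phi_lt (a : Fin N → V) {C D : Set V} (hC : C ∈ Y a) (hD : D ∈ Y a) (h : C ⊂ D) :
    phi a C < phi a D := by
  obtain ⟨-, P, M, rfl⟩ := hC
  obtain ⟨x, hx, hx'⟩ := exists_of_ssubset h
  have h1 : ‖x‖ = 1 := by obtain ⟨-, P, M, rfl⟩ := hD; exact hx.1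
  have s1 : (Finset.univ.filter fun i => (∃ x ∈ cv a P M, ⟪a i, x⟫ < 0) ∧
      ∃ x ∈ cv a P M, 0 < ⟪a i, x⟫) ⊆
      Finset.univ.filter fun i => (∃ x ∈ D, ⟪a i, x⟫ < 0) ∧ ∃ x ∈ D, 0 < ⟪a i, x⟫ := by
    intro i
    simp only [Finset.mem_filter, Finset.mem_univ, true_and]
    rintro ⟨⟨y, a, b⟩, z, c, d⟩
    exact ⟨⟨y, h.1 a, b⟩, z, h.1 c, d⟩
  have s2 := Submodule.span_mono (R := ℝ) h.1
  have key : ∀ i, ⟪a i, x⟫ ≠ 0 → (∀ y ∈ cv a P M, ⟪a i, y⟫ = 0) → phi a (cv a P M) < phi a D := by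
    intro i hi hy
    refine add_lt_add_of_le_of_lt (Finset.card_le_card s1)
      (Submodule.finrank_lt_finrank_of_lt (lt_of_le_of_ne s2 fun e => hi ?_))
    have : Submodule.span ℝ (cv a P M) ≤ (ℝ ∙ a i)ᗮ := Submodule.span_le.2 fun y h =>
      Submodule.mem_orthogonal_singleton_iff_inner_right.2 (hy y h)
    exact Submodule.mem_orthogonal_singleton_iff_inner_right.1
      (this (e ▸ Submodule.subset_span hx))
  have key2 : ∀ i, ((∃ x ∈ D, ⟪a i, x⟫ < 0) ∧ ∃ x ∈ D, 0 < ⟪a i, x⟫) →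
      ¬ ((∃ x ∈ cv a P M, ⟪a i, x⟫ < 0) ∧ ∃ x ∈ cv a P M, 0 < ⟪a i, x⟫) →
      phi a (cv a P M) < phi a D := fun i h1 h2 =>
    add_lt_add_of_lt_of_le (Finset.card_lt_card ⟨s1, fun k => h2
      (Finset.mem_filter.1 (k (Finset.mem_filter.2 ⟨Finset.mem_univ i, h1⟩))).2⟩)
      (Submodule.finrank_mono s2)
  simp only [cv, mem_setOf_eq, h1, true_and, not_and_or, not_forall, not_le] at hx'
  rcases hx' with ⟨i, hi, k⟩ | ⟨i, hi, k⟩
  · by_cases c : ∃ y ∈ cv a P M, 0 < ⟪a i, y⟫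
    · obtain ⟨y, c1, c2⟩ := c
      exact key2 i ⟨⟨x, hx, k⟩, y, h.1 c1, c2⟩ fun ⟨⟨z, d1, d2⟩, _⟩ => d2.not_ge (d1.2.1 i hi)
    · push Not at c
      exact key i k.ne fun y hy => (c y hy).antisymm (hy.2.1 i hi)
  · by_cases c : ∃ y ∈ cv a P M, ⟪a i, y⟫ < 0
    · obtain ⟨y, c1, c2⟩ := c
      exact key2 i ⟨⟨y, h.1 c1, c2⟩, x, hx, k⟩ fun ⟨_, z, d1, d2⟩ => d2.not_ge (d1.2.2 i hi)
    · push Not at c
      exact key i k.ne' fun y hy => (hy.2.2 i hi).antisymm (c y hy)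

open Classical in
lemma upper (a : Fin N → V) : Order.krullDim (Y a) ≤ (finrank ℝ V - 1 + N : ℕ) := by
  refine iSup_le fun p => ?_
  have h := (p.map (fun C : Y a => phi a C) fun C D h => phi_lt a C.2 D.2 h).head_add_length_le_nat
  have h1 : 1 ≤ phi a p.head := by
    obtain ⟨⟨x, hx⟩, P, M, e⟩ := p.head.2
    have : x ≠ 0 := by
      rintro rfl
      rw [e] at hx
      simpa using hx.1
    have := (Submodule.one_le_finrank_iff (S := Submodule.span ℝ p.head.1)).2 fun e =>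
      this ((Submodule.mem_bot ℝ).1 (e ▸ Submodule.subset_span hx))
    unfold phi; omega
  have h2 : phi a p.last ≤ N + finrank ℝ V :=
    add_le_add ((Finset.card_filter_le _ _).trans (by simp)) (Submodule.finrank_le _)
  have h3 : phi a p.head + p.length ≤ phi a p.last := h
  have : p.length ≤ finrank ℝ V - 1 + N := by omega
  exact_mod_cast this

omit [FiniteDimensional ℝ V] in
lemma gen (a : Fin N → V) (U : Submodule ℝ V) (p : V) : ∃ q ∈ U, ∀ i j,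
    ⟪a j, p⟫ * ⟪a i, q⟫ = ⟪a i, p⟫ * ⟪a j, q⟫ →
    ∀ x ∈ U, ⟪a j, p⟫ * ⟪a i, x⟫ = ⟪a i, p⟫ * ⟪a j, x⟫ := by
  let g : Fin N × Fin N → Dual ℝ V := fun k =>
    ⟪a k.2, p⟫ • (innerₛₗ ℝ (a k.1)) - ⟪a k.1, p⟫ • (innerₛₗ ℝ (a k.2))
  obtain ⟨q, hq, h⟩ := Module.Dual.exists_forall_mem_ne_zero_of_forall_exists U
    (fun k : {k // ∃ x ∈ U, g k x ≠ 0} => g k) fun k => k.2
  refine ⟨q, hq, fun i j e x hx => ?_⟩
  by_contra hn
  exact h ⟨(i, j), x, hx, by simpa [g, sub_eq_zero] using hn⟩ (by simpa [g, sub_eq_zero] using e)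

noncomputable def flat (a : Fin N → V) (Z : Set (Fin N)) : Submodule ℝ V := ⨅ i ∈ Z, (ℝ ∙ a i)ᗮ

omit [FiniteDimensional ℝ V] in
lemma mem_flat {a : Fin N → V} {Z : Set (Fin N)} {x : V} :
    x ∈ flat a Z ↔ ∀ i ∈ Z, ⟪a i, x⟫ = 0 := by
  simp [flat, Submodule.mem_orthogonal_singleton_iff_inner_right]

lemma faces {a : Fin N → V} (hs : Submodule.span ℝ (range a) = ⊤) (k : ℕ) :
    ∀ (Z : Set (Fin N)) (p : V), p ∈ flat a Z →
      (∀ i, 0 < ⟪a i, p⟫ ∨ ∀ x ∈ flat a Z, ⟪a i, x⟫ = 0) → k + 1 ≤ finrank ℝ (flat a Z) →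
      ∃ h : cv a univ Z ∈ Y a, (k : ℕ∞) ≤ Order.height (⟨_, h⟩ : Y a) := by
  have base : ∀ (Z : Set (Fin N)) (p : V), p ∈ flat a Z →
      (∀ i, 0 < ⟪a i, p⟫ ∨ ∀ x ∈ flat a Z, ⟪a i, x⟫ = 0) → 1 ≤ finrank ℝ (flat a Z) →
      (∃ i, 0 < ⟪a i, p⟫) ∧ p ≠ 0 ∧ ‖p‖⁻¹ • p ∈ cv a univ Z := by
    intro Z p hp h hk
    have h1 : ∃ i, 0 < ⟪a i, p⟫ := by
      by_contra hn
      apply Submodule.one_le_finrank_iff.1 hk
      rw [eq_bot_iff, ← Submodule.top_orthogonal_eq_bot, ← hs]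
      intro x hx
      rw [Submodule.mem_orthogonal]
      intro u hu
      induction hu using Submodule.span_induction with
      | mem _ h' => obtain ⟨i, rfl⟩ := h'; exact ((h i).resolve_left fun k => hn ⟨i, k⟩) x hx
      | zero => simp
      | add _ _ _ _ a b => rw [inner_add_left, a, b, add_zero]
      | smul _ _ _ a => rw [inner_smul_left, a, mul_zero]
    have h2 : p ≠ 0 := by rintro rfl; simp at h1
    exact ⟨h1, h2, (nm h2).2 ⟨fun i _ => (h i).elim le_of_lt fun k => (k p hp).ge,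
      fun i hi => (mem_flat.1 hp i hi).le⟩⟩
  induction k with
  | zero => exact fun Z p hp h hk => ⟨⟨⟨_, (base Z p hp h hk).2.2⟩, _, _, rfl⟩, by simp⟩
  | succ k ih =>
    intro Z p hp h hk
    obtain ⟨hA, hp0, hm⟩ := base Z p hp h (by omega)
    obtain ⟨q, hq, hg⟩ := gen a (flat a Z) p
    obtain ⟨j, hj, hmin⟩ := exists_min_image {i | 0 < ⟪a i, p⟫} (fun i => ⟪a i, q⟫ / ⟪a i, p⟫)
      (toFinite _) hA
    have hj' : 0 < ⟪a j, p⟫ := hj
    have hfl : ∀ x, x ∈ flat a (insert j Z) ↔ ⟪a j, x⟫ = 0 ∧ x ∈ flat a Z := fun x => by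
      simp [mem_flat]
    obtain ⟨h1, h2⟩ := ih (insert j Z) (⟪a j, p⟫ • q - ⟪a j, q⟫ • p) (by
        rw [hfl]
        refine ⟨?_, sub_mem (Submodule.smul_mem _ _ hq) (Submodule.smul_mem _ _ hp)⟩
        simp only [inner_sub_right, inner_smul_right]; ring) (by
        intro i
        rcases h i with hi | hi
        · have := hmin i hi
          rw [div_le_div_iff₀ hj' hi] at this
          simp only [inner_sub_right, inner_smul_right]
          rcases this.eq_or_lt with e | e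
          · refine Or.inr fun x hx => ?_
            have := hg i j (by linarith) x ((hfl x).1 hx).2
            rw [((hfl x).1 hx).1, mul_zero] at this
            exact (mul_eq_zero.1 this).resolve_left hj'.ne'
          · left; linarith
        · exact Or.inr fun x hx => hi x ((hfl x).1 hx).2) (by
        have e : flat a (insert j Z) = (ℝ ∙ a j)ᗮ ⊓ flat a Z := by
          ext x; simp [hfl, Submodule.mem_orthogonal_singleton_iff_inner_right]
        have h1 := Submodule.finrank_sup_add_finrank_inf_eq (ℝ ∙ a j)ᗮ (flat a Z)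
        have h2 := Submodule.finrank_le ((ℝ ∙ a j)ᗮ ⊔ flat a Z)
        have h3 := Submodule.finrank_add_finrank_orthogonal (ℝ ∙ a j)
        rw [finrank_span_singleton (by rintro e; simp [e] at hj')] at h3
        rw [e]; omega)
    refine ⟨⟨⟨_, hm⟩, _, _, rfl⟩, ?_⟩
    push_cast
    refine le_trans (by gcongr) (Order.height_add_one_le (a := ⟨_, h1⟩) ⟨?_, fun k => ?_⟩)
    · exact fun x hx => ⟨hx.1, hx.2.1, fun i hi => hx.2.2 i (Or.inr hi)⟩
    · exact hj'.not_ge (((nm hp0).1 (k hm)).2 j (Or.inl rfl))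

lemma walls [Nontrivial V] {a : Fin N → V} (hs : Submodule.span ℝ (range a) = ⊤)
    (hr : ∀ i j (c : ℝ), a i = c • a j → i = j) {p : V} (hp : ∀ i, 0 < ⟪a i, p⟫) :
    ((finrank ℝ V - 1 + N : ℕ) : WithBot ℕ∞) ≤ Order.krullDim (Y a) := by
  obtain ⟨q, -, hg⟩ := gen a ⊤ p
  set r := fun i => ⟪a i, q⟫ / ⟪a i, p⟫ with hrd
  have inj : ∀ i j, r i = r j → i = j := by
    intro i j e
    simp only [hrd] at e
    rw [div_eq_div_iff (hp i).ne' (hp j).ne'] at e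
    refine hr i j (⟪a i, p⟫ / ⟪a j, p⟫) (ext_inner_right ℝ fun x => ?_)
    have := hg i j (by linarith) x trivial
    have h := hp j
    rw [inner_smul_left, conj_trivial]
    field_simp
    linarith
  have key : ∀ (m : ℕ) (T : Set (Fin N)), (∀ i ∈ T, ∀ j, r i ≤ r j → j ∈ T) → Tᶜ.ncard = m →
      ∃ h : cv a T ∅ ∈ Y a, ((finrank ℝ V - 1 + m : ℕ) : ℕ∞) ≤ Order.height (⟨_, h⟩ : Y a) := by
    intro m
    induction m with
    | zero =>
      intro T _ h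
      rw [ncard_eq_zero, compl_empty_iff] at h
      subst h
      have e : flat a ∅ = ⊤ := by simp [flat]
      have := finrank_pos (R := ℝ) (M := V)
      exact faces hs _ ∅ p (by simp [e]) (fun i => Or.inl (hp i)) (by rw [e, finrank_top]; omega)
    | succ m ih =>
      intro T hT h
      obtain ⟨j, hj, hmax⟩ := exists_max_image Tᶜ r (toFinite _)
        (nonempty_of_ncard_ne_zero (by omega))
      obtain ⟨h1, h2⟩ := ih (insert j T) (by
          rintro i (rfl | hi) k hk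
          · by_cases c : k ∈ T
            · exact Or.inr c
            · exact Or.inl (inj _ _ ((hmax k c).antisymm hk))
          · exact Or.inr (hT i hi k hk)) (by
          rw [show (insert j T)ᶜ = Tᶜ \ {j} by ext; simp [and_comm],
            ncard_diff_singleton_of_mem hj, h]; rfl)
      have ev : ∀ᶠ t in 𝓝[>] (r j), ∀ i ∈ T, t < r i :=
        (eventually_all_finite (toFinite T)).2 fun i hi => nhdsWithin_le_nhds
          (gt_mem_nhds (not_le.1 fun k => hj (hT i hi j k)))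
      obtain ⟨t, h3, h4⟩ := (ev.and self_mem_nhdsWithin).exists
      have h5 : ⟪a j, q - t • p⟫ < 0 := by
        have : ⟪a j, q⟫ / ⟪a j, p⟫ < t := h4
        rw [div_lt_iff₀ (hp j)] at this
        rw [inner_sub_right, inner_smul_right]; linarith
      have h6 : q - t • p ≠ 0 := by rintro e; simp [e] at h5
      have hm : ‖q - t • p‖⁻¹ • (q - t • p) ∈ cv a T ∅ := (nm h6).2 ⟨fun i hi => by
        have : t < ⟪a i, q⟫ / ⟪a i, p⟫ := h3 i hi
        rw [lt_div_iff₀ (hp i)] at this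
        rw [inner_sub_right, inner_smul_right]; linarith, by simp⟩
      refine ⟨⟨⟨_, hm⟩, _, _, rfl⟩, ?_⟩
      rw [← add_assoc, Nat.cast_succ]
      refine le_trans (by gcongr) (Order.height_add_one_le (a := ⟨_, h1⟩) ⟨?_, fun k => ?_⟩)
      · exact fun x hx => ⟨hx.1, fun i hi => hx.2.1 i (Or.inr hi), hx.2.2⟩
      · exact h5.not_ge (((nm h6).1 (k hm)).1 j (Or.inl rfl))
  obtain ⟨h, h2⟩ := key N ∅ (by simp) (by simp)
  exact le_trans (WithBot.coe_le_coe.2 h2) (Order.height_le_krullDim _)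

theorem result (V : Type) [NormedAddCommGroup V] [InnerProductSpace ℝ V] [FiniteDimensional ℝ V]
    [Nontrivial V] (N : ℕ) (a : Fin N → V) (h0 : ∀ i, a i ≠ 0)
    (hr : ∀ i j (c : ℝ), a i = c • a j → i = j) (hs : Submodule.span ℝ (range a) = ⊤) :
    Order.krullDim (Y a) = (finrank ℝ V - 1 + N : ℕ) := by
  refine (upper a).antisymm ?_
  obtain ⟨p, -, hp⟩ := Module.Dual.exists_forall_mem_ne_zero_of_forall_exists (⊤ : Submodule ℝ V)
    (fun i => innerₛₗ ℝ (a i)) fun i => ⟨a i, trivial, by simpa using h0 i⟩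
  simp only [innerₛₗ_apply_apply] at hp
  set b := fun i => ⟪a i, p⟫ • a i with hb
  have sub : ∀ (a : Fin N → V) (s : Fin N → ℝ), (∀ i, s i ≠ 0) → Y (fun i => s i • a i) ⊆ Y a := by
    rintro a s hs _ ⟨hn, P, M, rfl⟩
    refine ⟨hn, {i | 0 < s i ∧ i ∈ P ∨ s i < 0 ∧ i ∈ M}, {i | s i < 0 ∧ i ∈ P ∨ 0 < s i ∧ i ∈ M}, ?_⟩
    ext x
    simp only [cv, mem_setOf_eq, inner_smul_left, conj_trivial]
    refine and_congr_right fun _ => ⟨fun ⟨h1, h2⟩ => ⟨?_, ?_⟩, fun ⟨h1, h2⟩ => ⟨?_, ?_⟩⟩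
    · rintro i (⟨c, d⟩ | ⟨c, d⟩)
      · nlinarith [h1 i d]
      · nlinarith [h2 i d]
    · rintro i (⟨c, d⟩ | ⟨c, d⟩)
      · nlinarith [h1 i d]
      · nlinarith [h2 i d]
    · intro i hi
      rcases (hs i).lt_or_gt with c | c
      · nlinarith [h2 i (Or.inl ⟨c, hi⟩)]
      · nlinarith [h1 i (Or.inl ⟨c, hi⟩)]
    · intro i hi
      rcases (hs i).lt_or_gt with c | c
      · nlinarith [h1 i (Or.inr ⟨c, hi⟩)]
      · nlinarith [h2 i (Or.inr ⟨c, hi⟩)]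
  refine le_trans (walls (a := b) (p := p) ?_ ?_ ?_)
    (Order.krullDim_le_of_strictMono (inclusion (sub a _ hp)) fun _ _ h => h)
  · rw [eq_top_iff, ← hs, Submodule.span_le]
    rintro _ ⟨i, rfl⟩
    have : a i = ⟪a i, p⟫⁻¹ • b i := by simp [hb, smul_smul, hp i]
    rw [this]
    exact Submodule.smul_mem _ _ (Submodule.subset_span ⟨i, rfl⟩)
  · intro i j c e
    refine hr i j (⟪a i, p⟫⁻¹ * c * ⟪a j, p⟫) ?_
    rw [mul_smul, mul_smul]
    exact (eq_inv_smul_iff₀ (hp i)).2 e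
  · intro i
    simp only [hb, inner_smul_left, conj_trivial]
    exact mul_self_pos.2 (hp i)

end Pool.Agent.Results.MP_70010f_co.Dim
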